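import Mathlib

namespace Pool.Agent.Results.MP_062ce2_co.Multi

open MvPolynomial Finset

def gr {n : ℕ} (A : List (Fin n × Fin n)) : SimpleGraph (Fin n) :=
  SimpleGraph.fromRel fun u v => (u, v) ∈ A

open Classical in
noncomputable def U {n : ℕ} (E : List (Fin n × Fin n)) : MvPolynomial (Option ℕ) ℤ :=
  (E.sublists.map fun A => (∏ C : (gr A).ConnectedComponent, X (some C.supp.ncard)) *
    (X none - 1) ^ (A.length - (n - Nat.card (gr A).ConnectedComponent))).sum

open Classical in
noncomputable def inside {n : ℕ} (A : List (Fin n × Fin n)) (S : Set (Fin n)) : ℕ :=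
  A.countP fun e => e.1 ∈ S ∧ e.2 ∈ S

open Classical in
noncomputable def strongU {n : ℕ} (E : List (Fin n × Fin n)) : MvPolynomial (ℕ × ℕ) ℤ :=
  (E.sublists.map fun A => ∏ C : (gr A).ConnectedComponent,
    X (C.supp.ncard, inside A C.supp + 1 - C.supp.ncard)).sum

def G : List (Fin 6 × Fin 6) :=
  [(3, 2), (4, 1), (4, 2), (4, 2), (4, 3), (5, 0), (5, 1), (5, 3), (5, 4)]

def H : List (Fin 6 × Fin 6) :=
  [(3, 2), (4, 1), (4, 2), (4, 3), (5, 0), (5, 1), (5, 1), (5, 3), (5, 4)]

def lab {n : ℕ} : List (Fin n × Fin n) → Fin n → Fin n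
  | [], v => v
  | e :: A, v => if lab A v = lab A e.2 then lab A e.1 else lab A v

theorem reach_lab {n : ℕ} (A : List (Fin n × Fin n)) (v : Fin n) :
    (gr A).Reachable v (lab A v) := by
  induction A generalizing v with
  | nil => rfl
  | cons e A ih =>
    have m : gr A ≤ gr (e :: A) := fun a b h => by
      simp only [gr, SimpleGraph.fromRel_adj, List.mem_cons] at h ⊢
      tauto
    have he : (gr (e :: A)).Reachable e.2 e.1 := by
      by_cases h : e.2 = e.1
      · rw [h]
      · exact SimpleGraph.Adj.reachable (by simp [gr, h])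
    unfold lab
    split_ifs with h
    · exact ((ih v).mono m).trans (h ▸ ((ih e.2).mono m).symm.trans (he.trans ((ih e.1).mono m)))
    · exact (ih v).mono m

theorem lab_edge {n : ℕ} (A : List (Fin n × Fin n)) : ∀ e ∈ A, lab A e.1 = lab A e.2 := by
  induction A with
  | nil => simp
  | cons a A ih =>
    intro e he
    rcases List.mem_cons.1 he with rfl | h
    · simp [lab]
    · simp only [lab, ih e h]

theorem reach_iff {n : ℕ} (A : List (Fin n × Fin n)) (u v : Fin n) :
    (gr A).Reachable u v ↔ lab A u = lab A v := by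
  constructor
  · rintro ⟨p⟩
    induction p with
    | nil => rfl
    | cons h _ ih =>
      rw [← ih]
      simp only [gr, SimpleGraph.fromRel_adj] at h
      rcases h.2 with h | h
      · exact lab_edge A _ h
      · exact (lab_edge A _ h).symm
  · intro h
    exact (reach_lab A u).trans (h ▸ (reach_lab A v).symm)

open Classical in
theorem prod_comp {n : ℕ} {M : Type} [CommMonoid M] (A : List (Fin n × Fin n))
    (g : Set (Fin n) → M) : ∏ C : (gr A).ConnectedComponent, g C.supp =
      ∏ r ∈ univ.image (lab A), g {v | lab A v = r} := by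
  symm
  have id : ∀ v, lab A (lab A v) = lab A v := fun v => ((reach_iff A _ _).1 (reach_lab A v)).symm
  refine prod_bij (fun r _ => (gr A).connectedComponentMk r) (by simp) ?_ ?_ ?_
  · intro a ha b hb h
    obtain ⟨u, -, rfl⟩ := mem_image.1 ha
    obtain ⟨v, -, rfl⟩ := mem_image.1 hb
    rw [SimpleGraph.ConnectedComponent.eq, reach_iff, id, id] at h
    exact h
  · intro C _
    induction C using SimpleGraph.ConnectedComponent.ind with
    | h v => exact ⟨lab A v, by simp, SimpleGraph.ConnectedComponent.sound (reach_lab A v).symm⟩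
  · intro a ha
    obtain ⟨u, -, rfl⟩ := mem_image.1 ha
    congr 1
    ext v
    simp [reach_iff, id]

theorem card_comp {n : ℕ} (A : List (Fin n × Fin n)) :
    Nat.card (gr A).ConnectedComponent = (univ.image (lab A)).card := by
  classical
  have := prod_comp (M := Multiplicative ℕ) A fun _ => Multiplicative.ofAdd 1
  simp only [prod_const, card_univ] at this
  have := congrArg Multiplicative.toAdd this
  simp only [toAdd_pow, toAdd_ofAdd, smul_eq_mul, mul_one] at this
  rw [← this, Nat.card_eq_fintype_card]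

def sz {n : ℕ} (A : List (Fin n × Fin n)) (r : Fin n) : ℕ := #{v | lab A v = r}

theorem ncard_eq {n : ℕ} (A : List (Fin n × Fin n)) (r : Fin n) :
    {v | lab A v = r}.ncard = sz A r := by
  rw [sz, ← Set.ncard_coe_finset]; congr 1; ext; simp

def sig {n : ℕ} (A : List (Fin n × Fin n)) : ℕ × Multiset ℕ :=
  (A.length, (univ.image (lab A)).val.map (sz A))

noncomputable def tm (n : ℕ) (s : ℕ × Multiset ℕ) : MvPolynomial (Option ℕ) ℤ :=
  (s.2.map fun i => X (some i)).prod * (X none - 1) ^ (s.1 - (n - s.2.card))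

theorem U_eq {n : ℕ} (E : List (Fin n × Fin n)) :
    U E = ((E.sublists.map sig).map (tm n)).sum := by
  rw [U, List.map_map]
  congr 2
  funext A
  rw [prod_comp A fun S => X (some S.ncard), card_comp]
  simp only [Function.comp, tm, sig, ncard_eq, Multiset.map_map, Multiset.card_map]
  rfl

def z (p : ℕ × ℕ) : ℤ := if p = (2, 1) ∨ p = (4, 0) then 1 else 0

def val {n : ℕ} (E : List (Fin n × Fin n)) : ℤ :=
  (E.sublists.map fun A => ∏ r ∈ univ.image (lab A), z (sz A r,
    A.countP (fun e => lab A e.1 = r ∧ lab A e.2 = r) + 1 - sz A r)).sum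

theorem value_eq {n : ℕ} (E : List (Fin n × Fin n)) : eval z (strongU E) = val E := by
  classical
  rw [strongU, map_list_sum, List.map_map, val]
  congr 2
  funext A
  simp only [Function.comp]
  rw [prod_comp A fun S => X (S.ncard, inside A S + 1 - S.ncard), map_prod]
  refine prod_congr rfl fun r _ => ?_
  have : inside A {v | lab A v = r} = A.countP fun e => lab A e.1 = r ∧ lab A e.2 = r :=
    List.countP_congr fun e _ => by simp
  rw [eval_X, ncard_eq, this]

theorem perm : (G.sublists.map sig).Perm (H.sublists.map sig) := by decide +kernel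

theorem vG : val G = 1 := by decide +kernel

theorem vH : val H = 0 := by decide +kernel

theorem noiso : ∀ a b c : Fin 6, (H.map fun e => s(e.1, e.2)).count s(a, b) = 2 →
    s(c, a) ∈ (H.map fun e => s(e.1, e.2)) → s(c, b) ∈ (H.map fun e => s(e.1, e.2)) →
    ∀ d, s(d, a) ∈ (H.map fun e => s(e.1, e.2)) → s(d, c) ∈ (H.map fun e => s(e.1, e.2)) →
    ∀ f, s(f, a) ∈ (H.map fun e => s(e.1, e.2)) → s(f, d) ∈ (H.map fun e => s(e.1, e.2)) →
    f = c ∨ d = b ∨ f = b := by decide +kernel

theorem result : (∀ e ∈ G, e.1 ≠ e.2) ∧ (∀ e ∈ H, e.1 ≠ e.2) ∧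
    (¬ ∃ σ : Fin 6 ≃ Fin 6, (G.map fun e => s(σ e.1, σ e.2)).Perm (H.map fun e => s(e.1, e.2))) ∧
    U G = U H ∧ strongU G ≠ strongU H := by
  refine ⟨by decide, by decide, ?_, ?_, fun h => ?_⟩
  · rintro ⟨σ, h⟩
    have := noiso (σ 4) (σ 2) (σ 3) (by
      rw [← h.count_eq]
      simp [G]) (h.subset (by simp [G])) (h.subset (by simp [G]))
      (σ 5) (h.subset (by simp [G])) (h.subset (by simp [G]))
      (σ 1) (h.subset (by simp [G])) (h.subset (by simp [G]))
    simp at this
  · rw [U_eq, U_eq]
    exact (perm.map _).sum_eq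
  · have := congrArg (eval z) h
    rw [value_eq, value_eq, vG, vH] at this
    exact one_ne_zero this

end Pool.Agent.Results.MP_062ce2_co.Multi
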